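import Pool.Agent.J6H54.CG.Stm

/-!
# Project CG, item 21: insertion of a digit
-/

set_option autoImplicit false

namespace Pool.Agent.J6H80.CG21

open Pool.Agent.J6H54.CG

theorem prefix_ht {k : ℕ} {T : Finset Pt} {R : ℕ} (hB : Bd k T R) (i : ℤ) :
    ∀ (w : List Pt) (s : ℤ), Wd T w → s ≤ i + R → i ≤ s + ht w →
      ∃ w1 w2, w = w1 ++ w2 ∧ i ≤ s + ht w1 ∧ s + ht w1 ≤ i + R := by
  intro w
  induction w with
  | nil =>
    intro s _ h1 h2
    exact ⟨[], [], rfl, by simpa using h2, by simpa using h1⟩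
  | cons t w ih =>
    intro s hw h1 h2
    by_cases h : i ≤ s
    · exact ⟨[], t :: w, rfl, by simpa using h, by simpa using h1⟩
    · push Not at h
      have h3 := hB.ht_le t (hw t (by simp))
      have h4 : s + t.2 ≤ i + R := by omega
      have h5 : i ≤ (s + t.2) + ht w := by
        rw [ht_cons] at h2
        omega
      obtain ⟨w1, w2, e, h6, h7⟩ := ih (s + t.2) (fun a ha => hw a (by simp [ha])) h4 h5
      refine ⟨t :: w1, w2, by rw [e]; rfl, ?_, ?_⟩ <;> rw [ht_cons] <;> omega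

theorem len_kpow {k : ℕ} {T : Finset Pt} {R : ℕ} (hT : Gen k T) (hB : Bd k T R) (m : ℤ) :
    len k T ((k : ℚ) ^ m, 0) ≤ 2 * (R * m.natAbs) + R := by
  have hk := hT.two_le
  have hka1 : KA k 1 := by simpa using ka_nat (k := k) 1
  have h1 := len_add hT (x := 0) (y := 1) (m := m) (n := 0) ka_zero hka1
  rw [zero_add, mul_one, add_zero] at h1
  have hka2 : KA k ((k : ℚ) ^ m) := by
    have := ka_shift hk hka1 m
    rwa [mul_one] at this
  have h2 := len_add hT (x := (k : ℚ) ^ m) (y := 0) (m := m) (n := -m) hka2 ka_zero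
  rw [mul_zero, add_zero, add_neg_cancel] at h2
  have h3 := len_vert hT hB m
  have h4 := len_vert hT hB (-m)
  rw [Int.natAbs_neg] at h4
  have h5 := hB.a_le
  omega

theorem m21 : S_insert := by
  intro k T R hT hB i H v hiH hv
  have hk := hT.two_le
  have hk0 := kne hk
  obtain ⟨w, hw, hval, hlen⟩ := exists_geo hT (p := (v, (H : ℤ))) hv
  have hht : ht w = H := by rw [← val_snd (k := k), hval]
  obtain ⟨w1, w2, e, h1, h2⟩ := prefix_ht hB (i : ℤ) w 0 hw (by positivity) (by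
    rw [hht]; exact_mod_cast (by omega : (i : ℤ) ≤ 0 + H))
  rw [zero_add] at h1 h2
  subst e
  have hw1 := hw.left
  have hw2 := hw.right
  obtain ⟨x1, y1, e1⟩ : ∃ x y, val k w1 = (x, y) := ⟨_, _, rfl⟩
  obtain ⟨x2, y2, e2⟩ : ∃ x y, val k w2 = (x, y) := ⟨_, _, rfl⟩
  have hy1 : y1 = ht w1 := by rw [← val_snd (k := k), e1]
  have hka1 : KA k x1 := by have := ka_val hT hw1; rwa [e1] at this
  have hka2 : KA k x2 := by have := ka_val hT hw2; rwa [e2] at this
  rw [val_append hk, e1, e2] at hval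
  have hv1 : x1 + (k : ℚ) ^ y1 * x2 = v := congrArg Prod.fst hval
  have hv2 : y1 + y2 = (H : ℤ) := congrArg Prod.snd hval
  have hl1 : len k T (x1, y1) ≤ w1.length := len_le' hw1 e1
  have hl2 : len k T (x2, y2) ≤ w2.length := len_le' hw2 e2
  have hkai : KA k ((k : ℚ) ^ ((i : ℤ) - y1)) := by
    have := ka_shift hk (x := 1) (by simpa using ka_nat (k := k) 1) ((i : ℤ) - y1)
    rwa [mul_one] at this
  have ha := len_add hT (x := x1) (y := (k : ℚ) ^ ((i : ℤ) - y1)) (m := y1) (n := 0) hka1 hkai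
  rw [← zpow_add₀ hk0, add_zero] at ha
  have he : y1 + ((i : ℤ) - y1) = i := by ring
  rw [he, zpow_natCast] at ha
  have hkac : KA k (x1 + (k : ℚ) ^ i) := by
    refine ka_add hk hka1 ?_
    have := ka_shift hk (x := 1) (by simpa using ka_nat (k := k) 1) (i : ℤ)
    rwa [mul_one, zpow_natCast] at this
  have hb := len_add hT (x := x1 + (k : ℚ) ^ i) (y := x2) (m := y1) (n := y2) hkac hka2
  have hfst : x1 + (k : ℚ) ^ i + (k : ℚ) ^ y1 * x2 = v + (k : ℚ) ^ i := by rw [← hv1]; ring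
  rw [hfst, hv2] at hb
  have hc := len_kpow hT hB ((i : ℤ) - y1)
  have hd : ((i : ℤ) - y1).natAbs ≤ R := by rw [hy1]; omega
  have hd' : R * ((i : ℤ) - y1).natAbs ≤ R * R := Nat.mul_le_mul_left R hd
  rw [← hlen, List.length_append]
  have hmul : 2 * R * R = 2 * (R * R) := by ring
  omega

end Pool.Agent.J6H80.CG21
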